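import Pool.Agent.Y535.PEG.Tg5
import Pool.Agent.Y535.PEG.Fre

/-! Free arcs of a curve without inscribed squares: paths of chords from the short chords at one end
to the short chords at the other end along which one direction of the pair of signed distances of
the two other vertices of the square does not occur. -/

set_option autoImplicit false
open Complex Set Topology Metric

namespace Pool.Agent.X163.Peg

open Pool.Agent.H763R2 Pool.Agent.H763R2.An Pool.Agent.W675.Peg Pool.Agent.TH569.Peg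
open Pool.Agent.Y535.PEG
open Pool.Agent.H763R2.Dm (NoSq floor_const)

variable {c : ℝ → ℂ} {θ : ℝ → ℝ → ℝ} {g : ℤ}

/-- two numbers in quarters of the same kind -/
theorem same_quarter {a b : ℝ} {k l : ℤ} (ha : k * Real.pi < a ∧ a < k * Real.pi + Real.pi / 2)
    (hb : l * Real.pi < b ∧ b < l * Real.pi + Real.pi / 2) (h : Even (l - k)) :
    0 < Real.cos a * Real.cos b ∧ 0 < Real.sin a * Real.sin b := by
  have key : ∀ {a : ℝ} {k : ℤ}, k * Real.pi < a → a < k * Real.pi + Real.pi / 2 →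
      ∃ p > 0, ∃ q > 0, Real.cos a = (-1) ^ k * p ∧ Real.sin a = (-1) ^ k * q := by
    intro a k h1 h2
    refine ⟨Real.cos (a - k * Real.pi), Real.cos_pos_of_mem_Ioo ⟨by linarith [Real.pi_pos],
      by linarith⟩, Real.sin (a - k * Real.pi), Real.sin_pos_of_pos_of_lt_pi (by linarith)
      (by linarith [Real.pi_pos]), ?_, ?_⟩
    · rw [Real.cos_sub_int_mul_pi, ← mul_assoc]
      rcases Int.even_or_odd k with hk | hk
      · rw [hk.neg_one_zpow]; ring
      · rw [hk.neg_one_zpow]; ring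
    · rw [Real.sin_sub_int_mul_pi, ← mul_assoc]
      rcases Int.even_or_odd k with hk | hk
      · rw [hk.neg_one_zpow]; ring
      · rw [hk.neg_one_zpow]; ring
  obtain ⟨p, hp, q, hq, e1, e2⟩ := key ha.1 ha.2
  obtain ⟨p', hp', q', hq', e3, e4⟩ := key hb.1 hb.2
  have hs : ((-1 : ℝ) ^ k) * (-1) ^ l = 1 := by
    rcases Int.even_or_odd k with hk | hk
    · have hl : Even l := by
        have := h.add hk
        rwa [sub_add_cancel] at this
      rw [hk.neg_one_zpow, hl.neg_one_zpow]; norm_num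
    · have hl : Odd l := by
        have := h.add_odd hk
        rwa [sub_add_cancel] at this
      rw [hk.neg_one_zpow, hl.neg_one_zpow]; norm_num
  rw [e1, e2, e3, e4]
  constructor
  · rw [show (-1 : ℝ) ^ k * p * ((-1) ^ l * p') = ((-1) ^ k * (-1) ^ l) * (p * p') by ring, hs, one_mul]
    positivity
  · rw [show (-1 : ℝ) ^ k * q * ((-1) ^ l * q') = ((-1) ^ k * (-1) ^ l) * (q * q') by ring, hs, one_mul]
    positivity

/-- along a path that avoids one direction -/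
theorem free_gen (L : Loop c) (J : Inj c) (A : Ang c (mgc c) θ g) {s t : ℝ} (Cs : Cone c s)
    (Ct : Cone c t) {ls lt : ℤ} (h1 : KL θ s ls) (h2 : KL θ t lt) (hev : Even (lt - ls)) {α : ℝ}
    (hp : ∀ ρ > 0, ∃ p, Pth p s t ρ ∧
      (∀ τ ∈ Icc (0:ℝ) 1, ∀ r > 0, ¬ (mgc c (DD c (p τ).1 (p τ).2) = r * Real.cos α ∧
        mgc c (CC c (p τ).1 (p τ).2) = r * Real.sin α)) ∧
      ¬ (0 < Real.cos α * mgc c (DD c (p 0).1 (p 0).2) ∧
        0 < Real.sin α * mgc c (CC c (p 0).1 (p 0).2))) : ls = lt := by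
  have hπ := Real.pi_pos
  obtain ⟨r1, hr1, sa⟩ := cone_sign L J Cs
  obtain ⟨r2, hr2, sb⟩ := cone_sign L J Ct
  obtain ⟨r3, hr3, ka⟩ := h1
  obtain ⟨r4, hr4, kb⟩ := h2
  obtain ⟨ρ, hρ, l1, l2, l3, l4⟩ : ∃ ρ > 0, ρ ≤ r1 ∧ ρ ≤ r2 ∧ ρ ≤ r3 ∧ ρ ≤ r4 :=
    ⟨min (min r1 r2) (min r3 r4), by positivity, (min_le_left _ _).trans (min_le_left _ _),
      (min_le_left _ _).trans (min_le_right _ _), (min_le_right _ _).trans (min_le_left _ _),
      (min_le_right _ _).trans (min_le_right _ _)⟩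
  obtain ⟨p, P, H, H0⟩ := hp ρ hρ
  have m0 : (0:ℝ) ∈ Icc (0:ℝ) 1 := ⟨le_rfl, zero_le_one⟩
  have m1 : (1:ℝ) ∈ Icc (0:ℝ) 1 := ⟨zero_le_one, le_rfl⟩
  have hf : ContinuousOn (fun τ => θ (p τ).1 (p τ).2) (Icc 0 1) :=
    A.cont.comp P.cont (fun τ hτ => P.lt τ hτ)
  have e0 := ka _ _ (P.s1.trans_le l3) (P.s2.trans_le l3) (P.lt 0 m0).1
  have e1 := kb _ _ (P.t1.trans_le l4) (P.t2.trans_le l4) (P.lt 1 m1).1
  have q0 := half_fl (cs_pos A (P.lt 0 m0).1 (P.lt 0 m0).2 (sa _ _ (P.s1.trans_le l1)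
    (P.s2.trans_le l1) (P.lt 0 m0).1).1)
  have q1 := half_fl (cs_pos A (P.lt 1 m1).1 (P.lt 1 m1).2 (sb _ _ (P.t1.trans_le l2)
    (P.t2.trans_le l2) (P.lt 1 m1).1).1)
  rw [e0] at q0
  rw [e1] at q1
  have hfl := floor_pre (V := Icc (0:ℝ) 1) isPreconnected_Icc
    (f := fun τ => (θ (p τ).1 (p τ).2 - α) / 2) ((hf.sub continuousOn_const).div_const 2)
    (fun τ hτ hs => by
      obtain ⟨n, hn⟩ := Real.sin_eq_zero_iff.1 hs
      have hth : θ (p τ).1 (p τ).2 = α + n * (2 * Real.pi) := by linarith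
      obtain ⟨r, hr, e2, e3⟩ := A.ex _ _ (P.lt τ hτ).1 (P.lt τ hτ).2
      refine H τ hτ r hr ⟨?_, ?_⟩
      · rw [e2, hth, Real.cos_add_int_mul_two_pi]
      · rw [e3, hth, Real.sin_add_int_mul_two_pi]) m0 m1
  obtain ⟨m, hm⟩ : ∃ m, m = ⌊(θ (p 0).1 (p 0).2 - α) / 2 / Real.pi⌋ := ⟨_, rfl⟩
  obtain ⟨u, hu⟩ : ∃ u, u = θ (p 0).1 (p 0).2 := ⟨_, rfl⟩
  obtain ⟨v, hv⟩ : ∃ v, v = θ (p 1).1 (p 1).2 := ⟨_, rfl⟩
  rw [← hu] at q0 hfl hm
  rw [← hv] at q1 hfl
  have b1 : α + m * (2 * Real.pi) ≤ u ∧ u < α + m * (2 * Real.pi) + 2 * Real.pi := by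
    have h3 := Int.floor_le ((u - α) / 2 / Real.pi)
    have h4 := Int.lt_floor_add_one ((u - α) / 2 / Real.pi)
    rw [← hm] at h3 h4
    rw [le_div_iff₀ hπ] at h3
    rw [div_lt_iff₀ hπ] at h4
    constructor <;> linarith
  have b2 : α + m * (2 * Real.pi) ≤ v ∧ v < α + m * (2 * Real.pi) + 2 * Real.pi := by
    have h3 := Int.floor_le ((v - α) / 2 / Real.pi)
    have h4 := Int.lt_floor_add_one ((v - α) / 2 / Real.pi)
    rw [← hfl, ← hm] at h3 h4
    rw [le_div_iff₀ hπ] at h3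
    rw [div_lt_iff₀ hπ] at h4
    constructor <;> linarith
  have near : ∀ l : ℤ, Even (l - ls) → l * Real.pi < α + m * (2 * Real.pi) →
      α + m * (2 * Real.pi) < l * Real.pi + Real.pi / 2 → False := by
    intro l hl h3 h4
    obtain ⟨g1, g2⟩ := same_quarter q0 ⟨h3, h4⟩ hl
    rw [Real.cos_add_int_mul_two_pi] at g1
    rw [Real.sin_add_int_mul_two_pi] at g2
    obtain ⟨r, hr, e2, e3⟩ := A.ex _ _ (P.lt 0 m0).1 (P.lt 0 m0).2
    apply H0
    rw [e2, e3, ← hu]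
    constructor
    · rw [show Real.cos α * (r * Real.cos u) = r * (Real.cos u * Real.cos α) by ring]
      positivity
    · rw [show Real.sin α * (r * Real.sin u) = r * (Real.sin u * Real.sin α) by ring]
      positivity
  obtain ⟨d, hd⟩ := hev
  have hlt : (lt : ℝ) = ls + 2 * d := by
    have : lt = ls + 2 * d := by omega
    rw [this]; push_cast; ring
  have d1 : d < 2 := by
    by_contra hcon
    push Not at hcon
    have : (2 : ℝ) ≤ d := by exact_mod_cast hcon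
    nlinarith [q0.1, q0.2, q1.1, q1.2, b1.1, b1.2, b2.1, b2.2]
  have d2 : -2 < d := by
    by_contra hcon
    push Not at hcon
    have : (d : ℝ) ≤ -2 := by exact_mod_cast hcon
    nlinarith [q0.1, q0.2, q1.1, q1.2, b1.1, b1.2, b2.1, b2.2]
  have d3 : d = -1 ∨ d = 0 ∨ d = 1 := by omega
  rcases d3 with h | h | h
  · exfalso
    have h5 : (d : ℝ) = -1 := by rw [h]; norm_num
    rw [h5] at hlt
    rw [hlt] at q1
    refine near lt ⟨d, hd⟩ ?_ ?_
    · rw [hlt]; nlinarith [q0.1, q0.2, q1.1, q1.2, b1.1, b1.2, b2.1, b2.2]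
    · rw [hlt]; nlinarith [q0.1, q0.2, q1.1, q1.2, b1.1, b1.2, b2.1, b2.2]
  · omega
  · exfalso
    have h5 : (d : ℝ) = 1 := by rw [h]; norm_num
    rw [h5] at hlt
    rw [hlt] at q1
    refine near ls ⟨0, by ring⟩ ?_ ?_
    · nlinarith [q0.1, q0.2, q1.1, q1.2, b1.1, b1.2, b2.1, b2.2]
    · nlinarith [q0.1, q0.2, q1.1, q1.2, b1.1, b1.2, b2.1, b2.2]

/-- the same on the right of the curve -/
theorem free_genR (L : Loop c) (J : Inj c) (A : Ang c (mgc c) θ g) {s t : ℝ} (Cs : Cone c s)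
    (Ct : Cone c t) {ls lt : ℤ} (h1 : KR θ s ls) (h2 : KR θ t lt) (hev : Even (lt - ls)) {α : ℝ}
    (hp : ∀ ρ > 0, ∃ p, Pth p s t ρ ∧
      (∀ τ ∈ Icc (0:ℝ) 1, ∀ r > 0, ¬ (mgc c (DD c (p τ).2 (p τ).1) = r * Real.cos α ∧
        mgc c (CC c (p τ).2 (p τ).1) = r * Real.sin α)) ∧
      ¬ (0 < Real.cos α * mgc c (DD c (p 0).2 (p 0).1) ∧
        0 < Real.sin α * mgc c (CC c (p 0).2 (p 0).1))) : ls = lt := by
  refine free_gen L.rev (J.rev L) (Ang.rev L A) Cs.rev Ct.rev h1.rev h2.rev hev (α := α)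
    (fun ρ hρ => ?_)
  obtain ⟨p, P, H, H0⟩ := hp ρ hρ
  have eD : ∀ x y, DD (fun t => c (-t)) (-y) (-x) = DD c y x := fun x y => by
    rw [DD_eq, DD_eq]; simp only [neg_neg]
  have eC : ∀ x y, CC (fun t => c (-t)) (-y) (-x) = CC c y x := fun x y => by
    rw [CC_eq, CC_eq]; simp only [neg_neg]
  refine ⟨_, P.rev, ?_, ?_⟩
  · intro τ hτ r hr h
    simp only [eD, eC, mgc_rev L] at h
    exact H τ hτ r hr h
  · intro h
    simp only [eD, eC, mgc_rev L] at h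
    exact H0 h

end Pool.Agent.X163.Peg
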