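import Pool.Agent.X163.Peg.Free

/-! Odd families of Jordan curves with free arcs. -/

set_option autoImplicit false
open Complex Set Topology Metric

namespace Pool.Agent.X163.Peg

open Pool.Agent.H763R2 Pool.Agent.H763R2.An Pool.Agent.W675.Peg Pool.Agent.TH569.Peg
open Pool.Agent.Y535.PEG
open Pool.Agent.H763R2.Dm (NoSq floor_const)

/-- inside -/
def Ins (C : Set ℂ) (z : ℂ) : Prop := z ∉ C ∧ Bornology.IsBounded (connectedComponentIn Cᶜ z)

/-- outside -/
def Outs (C : Set ℂ) (z : ℂ) : Prop := z ∉ C ∧ ¬ Bornology.IsBounded (connectedComponentIn Cᶜ z)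

/-- free arcs -/
def FreeArc (c : ℝ → ℂ) (s t : ℝ) : Prop := ∃ ε : ℂ, (ε = I ∨ ε = -I) ∧
  ∃ S T : Set ℂ → ℂ → Prop, (S = Ins ∨ S = Outs) ∧ (T = Ins ∨ T = Outs) ∧ ∃ q : ℝ, 0 < q ∧
    ∀ ρ > 0, ∃ x y : ℝ → ℝ, ContinuousOn x (Icc 0 1) ∧ ContinuousOn y (Icc 0 1) ∧
      |x 0 - s| < ρ ∧ |y 0 - s| < ρ ∧ |x 1 - t| < ρ ∧ |y 1 - t| < ρ ∧
      (∀ τ ∈ Icc (0:ℝ) 1, x τ < y τ ∧ y τ < x τ + 1 ∧
        ¬ (S (range c) (c (x τ) + ε * (c (y τ) - c (x τ))) ∧
          T (range c) (c (y τ) + ε * (c (y τ) - c (x τ))) ∧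
          infDist (c (x τ) + ε * (c (y τ) - c (x τ))) (range c) =
            q * infDist (c (y τ) + ε * (c (y τ) - c (x τ))) (range c))) ∧
      ¬ (S (range c) (c (x 0) + ε * (c (y 0) - c (x 0))) ∧
        T (range c) (c (y 0) + ε * (c (y 0) - c (x 0))))

variable {c : ℝ → ℂ}

theorem ins_pos' (L : Loop c) {z : ℂ} (h : 0 < mgc c z) : Ins (range c) z := by
  by_contra hcon
  have : Free (range c) z := by unfold Ins at hcon; unfold Free; tauto
  linarith [mgc_le_of_free L this]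

theorem outs_neg (L : Loop c) (J : Inj c) {z0 z : ℂ} (h0 : 0 < mgc c z0) (h : mgc c z < 0) :
    Outs (range c) z := by
  have nz : ∀ z, mgc c z ≠ 0 → z ∉ range c := fun z h hz => h ((mgc_sg L).zero L |>.2 hz)
  have hz := nz z h.ne
  have hz0 := nz z0 h0.ne'
  refine ⟨hz, fun hb => ?_⟩
  have hr := range_cir L
  have h1 := Pool.Agent.Helper265.Br.jordan_one (cir_cont L) (cir_inj L J) (a := z0) (b := z)
      (by rw [hr]; exact hz0) (by rw [hr]; exact hz) (by rw [hr]; exact (ins_pos' L h0).2)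
      (by rw [hr]; exact hb)
  rw [hr] at h1
  have odd_of_pos : ∃ n, IsWc c z0 n ∧ Odd n := by
    by_contra hcon
    have : mgc c z0 = - infDist z0 (range c) := by
      unfold mgc
      rw [if_neg (show ¬ Odc c z0 from hcon)]
    have h2 := infDist_nonneg (x := z0) (s := range c)
    linarith
  obtain ⟨n, hn, ho⟩ := odd_of_pos
  have h2 : IsWc c z n := wind_comp L hz0 h1 hn
  have h3 : mgc c z = infDist z (range c) := by
    unfold mgc
    rw [if_pos (show Odc c z from ⟨n, h2, ho⟩)]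
  have h4 := infDist_nonneg (x := z) (s := range c)
  linarith

/-- the sign of a side -/
theorem side_sign (L : Loop c) (J : Inj c) {z0 : ℂ} (h0 : 0 < mgc c z0)
    {S : Set ℂ → ℂ → Prop} (hS : S = Ins ∨ S = Outs) : ∃ σ : ℝ, (σ = 1 ∨ σ = -1) ∧
      ∀ z, 0 < σ * mgc c z → S (range c) z := by
  rcases hS with rfl | rfl
  · exact ⟨1, Or.inl rfl, fun z hz => ins_pos' L (by linarith)⟩
  · exact ⟨-1, Or.inr rfl, fun z hz => outs_neg L J h0 (by linarith)⟩

theorem dir_exists {a b : ℝ} (ha : a ≠ 0) : ∃ α r : ℝ, 0 < r ∧ r * Real.cos α = a ∧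
    r * Real.sin α = b := by
  refine ⟨Complex.arg ⟨a, b⟩, ‖(⟨a, b⟩ : ℂ)‖, norm_pos_iff.2 (fun h => ha ?_), ?_, ?_⟩
  · have := congrArg Complex.re h
    simpa using this
  · exact Complex.norm_mul_cos_arg _
  · exact Complex.norm_mul_sin_arg _

/-- from a pattern to a direction -/
theorem dir_of (L : Loop c) (J : Inj c) {z0 : ℂ} (h0 : 0 < mgc c z0) {S T : Set ℂ → ℂ → Prop}
    (hS : S = Ins ∨ S = Outs) (hT : T = Ins ∨ T = Outs) {q : ℝ} (hq : 0 < q) :
    ∃ α : ℝ, (∀ z w : ℂ, ¬ (S (range c) z ∧ T (range c) w ∧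
        infDist z (range c) = q * infDist w (range c)) →
        ∀ r > 0, ¬ (mgc c z = r * Real.cos α ∧ mgc c w = r * Real.sin α)) ∧
      ∀ z w : ℂ, ¬ (S (range c) z ∧ T (range c) w) →
        ¬ (0 < Real.cos α * mgc c z ∧ 0 < Real.sin α * mgc c w) := by
  obtain ⟨σ, h1, h2⟩ := side_sign L J h0 hS
  obtain ⟨σ', h3, h4⟩ := side_sign L J h0 hT
  have n1 : σ ≠ 0 := by rcases h1 with h | h <;> rw [h] <;> norm_num
  have sq1 : σ * σ = 1 := by rcases h1 with h | h <;> rw [h] <;> norm_num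
  have sq2 : σ' * σ' = 1 := by rcases h3 with h | h <;> rw [h] <;> norm_num
  obtain ⟨α, m, hm, e1, e2⟩ := dir_exists (a := σ * q) (b := σ') (mul_ne_zero n1 hq.ne')
  have a1 : |σ| = 1 := by rcases h1 with h | h <;> rw [h] <;> norm_num
  have a2 : |σ'| = 1 := by rcases h3 with h | h <;> rw [h] <;> norm_num
  have c1 : Real.cos α = σ * (q / m) := by field_simp; linarith
  have c2 : Real.sin α = σ' * (1 / m) := by field_simp; linarith
  have p1 : 0 < q / m := by positivity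
  have p2 : 0 < 1 / m := by positivity
  refine ⟨α, fun z w hno r hr he => hno ⟨h2 z ?_, h4 w ?_, ?_⟩, fun z w hno he =>
    hno ⟨h2 z ?_, h4 w ?_⟩⟩
  · rw [he.1, c1, show σ * (r * (σ * (q / m))) = (σ * σ) * (r * (q / m)) by ring, sq1, one_mul]
    positivity
  · rw [he.2, c2, show σ' * (r * (σ' * (1 / m))) = (σ' * σ') * (r * (1 / m)) by ring, sq2, one_mul]
    positivity
  · rw [← mgc_abs, ← mgc_abs, he.1, he.2, c1, c2, abs_mul, abs_mul, abs_mul, abs_mul, a1, a2,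
      abs_of_pos hr, abs_of_pos p1, abs_of_pos p2]
    field_simp
  · have h := he.1
    rw [c1, show σ * (q / m) * mgc c z = (q / m) * (σ * mgc c z) by ring] at h
    exact (mul_pos_iff_of_pos_left p1).1 h
  · have h := he.2
    rw [c2, show σ' * (1 / m) * mgc c w = (1 / m) * (σ' * mgc c w) by ring] at h
    exact (mul_pos_iff_of_pos_left p2).1 h

/-- the charge of a free arc is even -/
theorem freeArc_even {θ : ℝ → ℝ → ℝ} {g : ℤ} (L : Loop c) (J : Inj c) (nosq : NoSq (range c))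
    (A : Ang c (mgc c) θ g) {z0 : ℂ} (h0 : 0 < mgc c z0) {s t : ℝ} (R : AR c s t) {ls lt : ℤ}
    (h1 : KL θ s ls) (h2 : KL θ t lt) (hF : FreeArc c s t) : ∃ k : ℤ, lt - ls = 4 * k := by
  obtain ⟨ε, hε, S, T, hS, hT, q, hq, H⟩ := hF
  rcases hε with rfl | rfl
  · obtain ⟨α, u1, u2⟩ := dir_of L J h0 hS hT hq
    refine ⟨0, ?_⟩
    have : ls = lt := free_gen L J A R.ha R.hb h1 h2 (KL.parity L J h0 A R.ha R.hb h1 h2) (α := α)
      (fun ρ hρ => by
        obtain ⟨x, y, cx, cy, b1, b2, b3, b4, b5, b6⟩ := H ρ hρ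
        refine ⟨fun τ => (x τ, y τ), ⟨cx.prodMk cy, fun τ hτ => ⟨(b5 τ hτ).1, (b5 τ hτ).2.1⟩, b1, b2,
          b3, b4⟩, fun τ hτ r hr h => ?_, fun h => ?_⟩
        · rw [DD_eq, CC_eq] at h
          exact u1 _ _ (b5 τ hτ).2.2 r hr h
        · rw [DD_eq, CC_eq] at h
          exact u2 _ _ b6 h)
    rw [this]; ring
  · obtain ⟨α, u1, u2⟩ := dir_of L J h0 hT hS (q := 1 / q) (by positivity)
    obtain ⟨ra, hra⟩ := exKR L J A R.ha
    obtain ⟨rb, hrb⟩ := exKR L J A R.hb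
    have : ra = rb := free_genR L J A R.ha R.hb hra hrb (KR.parity L J h0 A R.ha R.hb hra hrb)
      (α := α) (fun ρ hρ => by
        obtain ⟨x, y, cx, cy, b1, b2, b3, b4, b5, b6⟩ := H ρ hρ
        have eD : ∀ x y, DD c y x = c y + -I * (c y - c x) := fun x y => by
          rw [DD_eq]; ring
        have eC : ∀ x y, CC c y x = c x + -I * (c y - c x) := fun x y => by
          rw [CC_eq]; ring
        refine ⟨fun τ => (x τ, y τ), ⟨cx.prodMk cy, fun τ hτ => ⟨(b5 τ hτ).1, (b5 τ hτ).2.1⟩, b1, b2,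
          b3, b4⟩, fun τ hτ r hr h => ?_, fun h => ?_⟩
        · rw [eD, eC] at h
          refine u1 _ _ (fun hh => (b5 τ hτ).2.2 ⟨hh.2.1, hh.1, ?_⟩) r hr h
          rw [hh.2.2]; field_simp
        · rw [eD, eC] at h
          exact u2 _ _ (fun hh => b6 ⟨hh.2, hh.1⟩) h)
    obtain ⟨k, hk⟩ := parity L J nosq A R.ab R.ba R.ha R.hb h1 h2 hra hrb
    exact ⟨-k, by rw [this] at hk; linarith⟩

/-- the parity argument for a family of curves, with free arcs -/
theorem grand_free {N : ℕ} (hN : Odd N) {c : Fin N → ℝ → ℂ} (L : ∀ k, Loop (c k))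
    (J : ∀ k, Inj (c k)) (nosq : ∀ k, NoSq (range (c k))) {n : Fin N → ℕ} (hn : ∀ k, 2 ≤ n k)
    {t : Fin N → ℕ → ℝ} (ht : ∀ k, ∀ i < n k, t k i < t k (i + 1))
    (ht1 : ∀ k, t k (n k) = t k 0 + 1) {σ : Fin N × ℕ → Fin N × ℕ}
    (hσ : ∀ k, ∀ i < n k, (σ (k, i)).2 < n (σ (k, i)).1 ∧ σ (σ (k, i)) = (k, i))
    (H : ∀ k, ∀ i < n k,
      (Cone (c k) (t k i) ∧ Cone (c k) (t k (i + 1)) ∧
        ((∀ s ∈ Icc (t k i) (t k (i + 1)), Mon (c k) s) ∨ FreeArc (c k) (t k i) (t k (i + 1)))) ∨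
      (Cone (c k) (t k i) ∧ Cone (c k) (t k (i + 1)) ∧
        Cone (c (σ (k, i)).1) (t (σ (k, i)).1 (σ (k, i)).2) ∧
        Cone (c (σ (k, i)).1) (t (σ (k, i)).1 ((σ (k, i)).2 + 1)) ∧
        ∃ f, Smx f ∧ f '' (c k '' Icc (t k i) (t k (i + 1))) =
          c (σ (k, i)).1 '' Icc (t (σ (k, i)).1 (σ (k, i)).2) (t (σ (k, i)).1 ((σ (k, i)).2 + 1)) ∧
          (σ (k, i) = (k, i) → f (c k (t k i)) = c k (t k (i + 1)))) ∨
      (σ (k, i) ≠ (k, i) ∧ Dirc2 (c k) (c (σ (k, i)).1) (t k i) (t k (i + 1))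
        (t (σ (k, i)).1 (σ (k, i)).2) (t (σ (k, i)).1 ((σ (k, i)).2 + 1))) ∨
      Mirc2 (c k) (c (σ (k, i)).1) (t k i) (t k (i + 1))
        (t (σ (k, i)).1 (σ (k, i)).2) (t (σ (k, i)).1 ((σ (k, i)).2 + 1))) : False := by
  classical
  have ex := fun k => exDtx (L k) (J k) (nosq k)
  choose Th G N0 Z Y D using ex
  obtain ⟨x0, hx0⟩ := exXg (Gf c (fun k => Nrm (Th k) (N0 k))) Gf.refl
    (fun s t r k k' h h' => h.comp h') (fun s k h => Gf.loop D h)
  obtain ⟨X, hXc, hXn⟩ : ∃ X : Fin N × ℝ → ZMod 2, (∀ p, Cone (c p.1) p.2 →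
      X p = (Y p.1 p.2 : ZMod 2)) ∧ ∀ p, ¬ Cone (c p.1) p.2 → X p = x0 p :=
    ⟨fun p => if Cone (c p.1) p.2 then (Y p.1 p.2 : ZMod 2) else x0 p, fun p hp => if_pos hp,
      fun p hp => if_neg hp⟩
  have hX : ∀ p q k k', Gf c (fun k => Nrm (Th k) (N0 k)) p q k →
      Gf c (fun k => Nrm (Th k) (N0 k)) q p k' → X q = X p + k := by
    intro p q k k' h h'
    by_cases hs : Cone (c p.1) p.2
    · obtain ⟨hc, hl⟩ := h.tame D hs
      rw [hXc p hs, hXc q hc]
      exact hl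
    · have hc : ¬ Cone (c q.1) q.2 := fun hc => hs (h'.tame D hc).1
      rw [hXn p hs, hXn q hc]
      exact hx0 _ _ _ _ h h'
  have hXd : ∀ k s, Cone (c k) s → X (k, s) = (Y k s : ZMod 2) := fun k s h => hXc (k, s) h
  have ar : ∀ k, ∀ i < n k, Cone (c k) (t k i) → Cone (c k) (t k (i + 1)) →
      AR (c k) (t k i) (t k (i + 1)) :=
    fun k i hi c1 c2 => ⟨ht k i hi, ord_len (hn k) (ht k) (ht1 k) hi, c1, c2⟩
  obtain ⟨f, hf⟩ : ∃ f : Fin N × ℕ → ZMod 2, ∀ p, f p =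
      X (p.1, t p.1 (p.2 + 1)) - X (p.1, t p.1 p.2) := ⟨_, fun _ => rfl⟩
  have tot : ∑ p ∈ Finset.univ.sigma (fun k : Fin N => Finset.range (n k)), f (p.1, p.2) = 1 := by
    rw [Finset.sum_sigma]
    have e1 : ∀ k : Fin N, ∑ i ∈ Finset.range (n k), f (k, i) = 1 := fun k => by
      have e2 : ∑ i ∈ Finset.range (n k), f (k, i) =
          ∑ i ∈ Finset.range (n k), (X (k, t k (i + 1)) - X (k, t k i)) :=
        Finset.sum_congr rfl fun i _ => hf (k, i)
      rw [e2, Finset.sum_range_sub (fun i => X (k, t k i)), ht1 k,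
        hX _ _ _ _ (Gf.shift D k (t k 0)) (Gf.unshift D k (t k 0)), add_sub_cancel_left]
      exact z2_of_odd (D k).odd
    rw [Finset.sum_congr rfl (fun k _ => e1 k), Finset.sum_const, Finset.card_univ, Fintype.card_fin,
      nsmul_eq_mul, mul_one]
    have := z2_of_odd (m := (N : ℤ)) (by exact_mod_cast hN)
    simpa using this
  have one : ∀ k, ∀ i < n k, (f (k, i) = 0 ∨ f (σ (k, i)) = f (k, i)) ∧
      (σ (k, i) = (k, i) → f (k, i) = 0) := fun k i hi => by
    have hj := (hσ k i hi).1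
    rcases H k i hi with ⟨c1, c2, h | h⟩ | ⟨c1, c2, c3, c4, T, hT, k2, k3⟩ | ⟨hne, h⟩ | h
    · have e : f (k, i) = 0 := by
        rw [hf]
        simp only
        rw [hXd _ _ c1, hXd _ _ c2]
        rw [(D k).mon _ _ (ar k i hi c1 c2) h, sub_self]
      exact ⟨Or.inl e, fun _ => e⟩
    · have e : f (k, i) = 0 := by
        rw [hf]
        simp only
        rw [hXd _ _ c1, hXd _ _ c2]
        have a1 := ar k i hi c1 c2
        obtain ⟨m, hm⟩ := freeArc_even (L k) (J k) (nosq k) (D k).A (D k).pos a1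
          ((D k).lev _ a1.ha) ((D k).lev _ a1.hb) h
        have h2 := z2_of_even (m := Y k (t k (i + 1)) - Y k (t k i)) ⟨m, by linarith⟩
        push_cast at h2
        exact h2
      exact ⟨Or.inl e, fun _ => e⟩
    · have a1 := ar k i hi c1 c2
      refine ⟨Or.inr ?_, fun he => ?_⟩
      · obtain ⟨u, v, hu, hTT⟩ := hT
        have a2 := ar _ _ hj c3 c4
        have hp := pair2 (L k) (J k) (D k).pos (D k).A (L _) (J _) (nosq _) (D _).pos (D _).A a1 a2
          ((D k).lev _ a1.ha) ((D k).lev _ a1.hb) ((D _).lev _ a2.ha) ((D _).lev _ a2.hb) hu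
          (v := v) (by
            rcases hTT with h | h
            · left; rw [← h]; exact k2
            · right; rw [← h]; exact k2)
        rw [hf, hf]
        simp only
        rw [hXd _ _ c1, hXd _ _ c2, hXd _ _ c3, hXd _ _ c4]
        have := z2_pm (m := Y k (t k (i + 1)) - Y k (t k i))
          (m' := Y (σ (k, i)).1 (t (σ (k, i)).1 ((σ (k, i)).2 + 1)) -
            Y (σ (k, i)).1 (t (σ (k, i)).1 (σ (k, i)).2)) (by
          rcases hp with hp | hp
          · left; linarith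
          · right; linarith)
        push_cast at this
        exact this
      · rw [hf]
        simp only
        rw [hXd _ _ c1, hXd _ _ c2]
        have := z2_of_even ((D k).slf _ _ a1 ⟨T, hT, by rw [he] at k2; exact k2, k3 he⟩)
        push_cast at this
        exact this
    · refine ⟨Or.inr ?_, fun he => absurd he hne⟩
      rw [hf, hf]
      exact dirc2_x D hX (ht k i hi) (ht _ _ hj) h
    · obtain ⟨e1, e2⟩ := mirc2_x D hX (ht k i hi) (ht _ _ hj) h
      refine ⟨Or.inr ?_, fun he => ?_⟩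
      · rw [hf, hf]
        exact e1
      · rw [hf]
        exact e2 (by rw [he]) (by rw [he]) (by rw [he])
  have key : ∀ k, ∀ i < n k, f (σ (k, i)) = f (k, i) := fun k i hi => by
    obtain ⟨hj, hjj⟩ := hσ k i hi
    rcases (one k i hi).1 with h | h
    · rcases (one _ _ hj).1 with h' | h'
      · rw [h]; exact h'
      · rw [Prod.mk.eta, hjj] at h'
        exact h'.symm
    · exact h
  have h2 : ∑ p ∈ Finset.univ.sigma (fun k : Fin N => Finset.range (n k)), f (p.1, p.2) = 0 := by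
    refine Finset.sum_involution
      (fun p _ => (⟨(σ (p.1, p.2)).1, (σ (p.1, p.2)).2⟩ : (_ : Fin N) × ℕ))
      (fun p hp => ?_) (fun p hp hne he => ?_) (fun p hp => ?_) (fun p hp => ?_)
    · have hi : p.2 < n p.1 := Finset.mem_range.1 (Finset.mem_sigma.1 hp).2
      simp only [Prod.mk.eta]
      rw [key p.1 p.2 hi]
      exact (zm2 _ 0).1
    · have hi : p.2 < n p.1 := Finset.mem_range.1 (Finset.mem_sigma.1 hp).2
      refine hne ((one p.1 p.2 hi).2 ?_)
      have e1 := congrArg Sigma.fst he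
      have e2 := congrArg (fun q : (_ : Fin N) × ℕ => q.2) he
      exact Prod.ext e1 e2
    · have hi : p.2 < n p.1 := Finset.mem_range.1 (Finset.mem_sigma.1 hp).2
      exact Finset.mem_sigma.2 ⟨Finset.mem_univ _, Finset.mem_range.2 (hσ p.1 p.2 hi).1⟩
    · have hi : p.2 < n p.1 := Finset.mem_range.1 (Finset.mem_sigma.1 hp).2
      have e := (hσ p.1 p.2 hi).2
      simp only [Prod.mk.eta]
      rw [e]
  rw [tot] at h2
  exact one_ne_zero h2

end Pool.Agent.X163.Peg
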