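import Pool.Agent.X163.Peg.Grand

/-! Explicit free arcs. -/

set_option autoImplicit false
open Complex Set Topology Metric

namespace Pool.Agent.X163.Peg

open Pool.Agent.H763R2 Pool.Agent.H763R2.An Pool.Agent.W675.Peg Pool.Agent.TH569.Peg
open Pool.Agent.Y535.PEG
open Pool.Agent.H763R2.Dm (NoSq floor_const)

variable {c : ℝ → ℂ}

/-- first the chords from the first end, then the chords to the second end -/
theorem lshape {s t : ℝ} (hst : s < t) (hts : t < s + 1) {ε : ℂ} (hε : ε = I ∨ ε = -I)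
    {S T : Set ℂ → ℂ → Prop} (hS : S = Ins ∨ S = Outs) (hT : T = Ins ∨ T = Outs)
    (h1 : ∀ r, s < r → r ≤ t → ¬ (S (range c) (c s + ε * (c r - c s)) ∧
      T (range c) (c r + ε * (c r - c s))))
    (h2 : ∀ r, s ≤ r → r < t → ¬ (S (range c) (c r + ε * (c t - c r)) ∧
      T (range c) (c t + ε * (c t - c r)))) : FreeArc c s t := by
  refine ⟨ε, hε, S, T, hS, hT, 1, one_pos, fun ρ hρ => ?_⟩
  obtain ⟨δ, hδ, l1, l2⟩ : ∃ δ > 0, δ < ρ ∧ δ < t - s :=
    ⟨min (ρ / 2) ((t - s) / 2), by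
      have : 0 < t - s := by linarith
      positivity, (min_le_left _ _).trans_lt (by linarith),
      (min_le_right _ _).trans_lt (by linarith)⟩
  have e1 : ∀ τ : ℝ, τ ≤ 1 / 2 → s + max 0 (2 * τ - 1) * (t - δ - s) = s := fun τ hτ => by
    rw [max_eq_left (by linarith)]; ring
  have e2 : ∀ τ : ℝ, 1 / 2 ≤ τ → s + max 0 (2 * τ - 1) * (t - δ - s) =
      s + (2 * τ - 1) * (t - δ - s) := fun τ hτ => by
    rw [max_eq_right (by linarith)]
  have e3 : ∀ τ : ℝ, τ ≤ 1 / 2 → min t (s + δ + 2 * τ * (t - s - δ)) =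
      s + δ + 2 * τ * (t - s - δ) := fun τ hτ => by
    rw [min_eq_right]; nlinarith
  have e4 : ∀ τ : ℝ, 1 / 2 ≤ τ → min t (s + δ + 2 * τ * (t - s - δ)) = t := fun τ hτ => by
    rw [min_eq_left]; nlinarith
  have main : ∀ τ ∈ Icc (0:ℝ) 1, s + max 0 (2 * τ - 1) * (t - δ - s) <
      min t (s + δ + 2 * τ * (t - s - δ)) ∧ min t (s + δ + 2 * τ * (t - s - δ)) <
      s + max 0 (2 * τ - 1) * (t - δ - s) + 1 ∧
      ¬ (S (range c) (c (s + max 0 (2 * τ - 1) * (t - δ - s)) +
          ε * (c (min t (s + δ + 2 * τ * (t - s - δ))) -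
            c (s + max 0 (2 * τ - 1) * (t - δ - s)))) ∧
        T (range c) (c (min t (s + δ + 2 * τ * (t - s - δ))) +
          ε * (c (min t (s + δ + 2 * τ * (t - s - δ))) -
            c (s + max 0 (2 * τ - 1) * (t - δ - s))))) := by
    intro τ hτ
    rcases le_total τ (1 / 2) with h | h
    · rw [e1 τ h, e3 τ h]
      have b1 : 0 ≤ 2 * τ * (t - s - δ) := by
        have := hτ.1
        have h3 : 0 ≤ t - s - δ := by linarith
        positivity
      have b2 : s + δ + 2 * τ * (t - s - δ) ≤ t := by nlinarith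
      exact ⟨by linarith, by linarith, h1 _ (by linarith) b2⟩
    · rw [e2 τ h, e4 τ h]
      have b1 : 0 ≤ (2 * τ - 1) * (t - δ - s) := by
        have h3 : 0 ≤ t - δ - s := by linarith
        have h4 : 0 ≤ 2 * τ - 1 := by linarith
        positivity
      have b2 : s + (2 * τ - 1) * (t - δ - s) ≤ t - δ := by nlinarith [hτ.2]
      exact ⟨by linarith, by linarith, h2 _ (by linarith) (by linarith)⟩
  refine ⟨fun τ => s + max 0 (2 * τ - 1) * (t - δ - s), fun τ => min t (s + δ + 2 * τ * (t - s - δ)),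
    by fun_prop, by fun_prop, ?_, ?_, ?_, ?_, fun τ hτ => ?_, ?_⟩
  · simp only
    rw [e1 0 (by norm_num), sub_self, abs_zero]; exact hρ
  · simp only
    rw [e3 0 (by norm_num)]
    rw [show s + δ + 2 * 0 * (t - s - δ) - s = δ by ring, abs_of_pos hδ]; exact l1
  · simp only
    rw [e2 1 (by norm_num)]
    rw [show s + (2 * 1 - 1) * (t - δ - s) - t = -δ by ring, abs_neg, abs_of_pos hδ]; exact l1
  · simp only
    rw [e4 1 (by norm_num), sub_self, abs_zero]; exact hρ
  · obtain ⟨g1, g2, g3⟩ := main τ hτ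
    exact ⟨g1, g2, fun hh => g3 ⟨hh.1, hh.2.1⟩⟩
  · exact (main 0 ⟨le_rfl, zero_le_one⟩).2.2

/-- a point from which a ray avoids the set is not inside -/
theorem not_ins_of_ray {C : Set ℂ} {z d : ℂ} (hd : d ≠ 0)
    (h : ∀ l : ℝ, 0 < l → z + l * d ∉ C) : ¬ Ins C z := by
  rintro ⟨hz, hb⟩
  have h0 : ∀ l : ℝ, 0 ≤ l → z + l * d ∈ Cᶜ := by
    intro l hl
    rcases hl.eq_or_lt with rfl | hl
    · simpa using hz
    · exact h l hl
  have hsub : (fun l : ℝ => z + l * d) '' Ici 0 ⊆ connectedComponentIn Cᶜ z := by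
    apply IsPreconnected.subset_connectedComponentIn
    · exact isPreconnected_Ici.image _ (by fun_prop)
    · exact ⟨0, by simp, by simp⟩
    · rintro _ ⟨l, hl, rfl⟩
      exact h0 l hl
  obtain ⟨R, hR⟩ := (hb.subset hsub).subset_closedBall z
  have hd' : 0 < ‖d‖ := norm_pos_iff.2 hd
  have h1 := hR ⟨(|R| + 1) / ‖d‖, by simp only [mem_Ici]; positivity, rfl⟩
  rw [mem_closedBall, dist_eq_norm, add_sub_cancel_left, norm_mul, Complex.norm_real,
    Real.norm_eq_abs, abs_of_pos (by positivity), div_mul_cancel₀ _ hd'.ne'] at h1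
  linarith [le_abs_self R]

/-- pockets that project orthogonally into their opening are free -/
theorem pocket (J : Inj c) {s t : ℝ} (hst : s < t) (hts : t < s + 1) {σ : ℝ}
    (hσ : σ = 1 ∨ σ = -1)
    (hhalf : ∀ r, 0 ≤ σ * ((starRingEnd ℂ) (c t - c s) * (c r - c s)).im)
    (hstrip : ∀ r ∈ Icc s t, 0 ≤ ((starRingEnd ℂ) (c t - c s) * (c r - c s)).re ∧
      0 ≤ ((starRingEnd ℂ) (c t - c s) * (c t - c r)).re) : FreeArc c s t := by
  have hD : c t - c s ≠ 0 := sub_ne_zero.2 (J _ _ hst hts).symm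
  obtain ⟨D, hDD⟩ : ∃ D, D = c t - c s := ⟨_, rfl⟩
  rw [← hDD] at hhalf hstrip hD
  have hsq : σ * σ = 1 := by rcases hσ with h | h <;> rw [h] <;> norm_num
  have hn : 0 < Complex.normSq D := Complex.normSq_pos.2 hD
  have low : ∀ z, σ * ((starRingEnd ℂ) D * (z - c s)).im ≤ 0 → ¬ Ins (range c) z := by
    intro z hz
    refine not_ins_of_ray (d := -σ * I * D) (by
      have : (σ : ℂ) ≠ 0 := by
        rcases hσ with h | h <;> rw [h] <;> norm_num
      simp [this, hD]) (fun l hl => ?_)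
    rintro ⟨r, hr⟩
    have h1 := hhalf r
    rw [hr, show (starRingEnd ℂ) D * (z + l * (-σ * I * D) - c s) =
      (starRingEnd ℂ) D * (z - c s) - (l * σ : ℝ) * ((starRingEnd ℂ) D * D) * I by
        push_cast; ring] at h1
    rw [← Complex.normSq_eq_conj_mul_self, Complex.sub_im] at h1
    have h2 : (((l * σ : ℝ) : ℂ) * (Complex.normSq D : ℂ) * I).im = l * σ * Complex.normSq D := by
      rw [← Complex.ofReal_mul, Complex.mul_I_im, Complex.ofReal_re]
    rw [h2] at h1
    have h3 : σ * (((starRingEnd ℂ) D * (z - c s)).im - l * σ * Complex.normSq D) =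
        σ * ((starRingEnd ℂ) D * (z - c s)).im - (σ * σ) * (l * Complex.normSq D) := by ring
    rw [h3, hsq, one_mul] at h1
    have : 0 < l * Complex.normSq D := by positivity
    linarith
  refine lshape hst hts (ε := -σ * I) (by rcases hσ with h | h <;> rw [h] <;> simp)
    (Or.inl rfl) (Or.inl rfl) (fun r h1 h2 hh => low _ ?_ hh.1) (fun r h1 h2 hh => low _ ?_ hh.2)
  · rw [show (starRingEnd ℂ) D * (c s + -σ * I * (c r - c s) - c s) =
      ((-σ : ℝ) : ℂ) * (((starRingEnd ℂ) D * (c r - c s)) * I) by push_cast; ring,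
      Complex.im_ofReal_mul, Complex.mul_I_im]
    rw [show σ * (-σ * ((starRingEnd ℂ) D * (c r - c s)).re) =
      -(σ * σ) * ((starRingEnd ℂ) D * (c r - c s)).re by ring, hsq]
    linarith [(hstrip r ⟨h1.le, h2⟩).1]
  · rw [show (starRingEnd ℂ) D * (c t + -σ * I * (c t - c r) - c s) =
      (starRingEnd ℂ) D * (c t - c s) +
        ((-σ : ℝ) : ℂ) * (((starRingEnd ℂ) D * (c t - c r)) * I) by push_cast; ring,
      Complex.add_im, Complex.im_ofReal_mul, Complex.mul_I_im, ← hDD,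
      ← Complex.normSq_eq_conj_mul_self, Complex.ofReal_im]
    rw [show σ * (0 + -σ * ((starRingEnd ℂ) D * (c t - c r)).re) =
      -(σ * σ) * ((starRingEnd ℂ) D * (c t - c r)).re by ring, hsq]
    linarith [(hstrip r ⟨h1, h2.le⟩).2]

end Pool.Agent.X163.Peg
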